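import Pool.Agent.MP_7b45f6_mp.H32.Spec

/-!
# Row CLOSE: lists with a bounded number of jumps are dominated by the tours
-/

set_option autoImplicit false

namespace Pool.Agent.MP_7b45f6_mp.H32

open Classical Filter Topology

namespace Close

/-- Lists with at most `j` jumps and size at most `M`. -/
def X (j M : ℕ) : Set (List P) := {w | Good w ∧ jn w ≤ j ∧ sz Finset.univ w ≤ M}

/-- The same with a closing step. -/
def X' (j M : ℕ) : Set (List P) := {w | w ∈ X j M ∧ Adj (lt w) (hd w)}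

/-- Subexponential growth. -/
def PP (θ : Par) (Y : ℕ → Set (List P)) : Prop :=
  ∀ (a : ℕ) (δ : ℝ), 0 < δ → ∀ᶠ n : ℕ in atTop,
    Bd (Y (a * n)) (ep θ Finset.univ) (Real.exp (δ * n))

theorem bd_empty {A : Type} {S : Set A} {f : A → ℝ} {G : ℝ} (h : ∀ x, x ∉ S) (hG : 0 ≤ G) :
    Bd S f G := fun s hs => by
  rw [Finset.eq_empty_of_forall_notMem (s := s) fun x hx => h x (hs hx), Finset.sum_empty]
  exact hG

theorem tot_tour {w : List P} (h1 : jn w ≤ 0) (h2 : Adj (lt w) (hd w)) :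
    tot Finset.univ w = w.length := by
  have h3 : w ≠ [] := by
    rintro rfl
    exact h2.ne rfl
  have h4 := len_of_chain (jn_eq_zero.1 (Nat.le_zero.1 h1))
  have h5 : d1 (lt w) (hd w) = 1 := h2
  have h6 := List.length_pos_of_ne_nil h3
  rw [tot, dI_univ]
  omega

theorem base {θ : Par} (h : DomAll θ) : PP θ (X' 0) := by
  obtain ⟨C, hC⟩ := h
  have hC0 : 0 ≤ C := by
    have := (hC 0 0).nonneg
    simp only [Nat.cast_zero, zero_add] at this
    nlinarith
  intro a δ hδ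
  filter_upwards [ev_poly C (2 * a + 3) 6 hδ] with n hn
  have h1 : Bd (X' 0 (a * n)) (ep θ Finset.univ)
      (((2 * (a * n) + 1) ^ 3 * (a * n + 1) : ℕ) * (C * (((a * n : ℕ) : ℝ) + 3) ^ 2)) := by
    refine Bd.classify (fun w => (hd w, w.length)) (by positivity) (fun t ht => ?_) ?_
    · refine (Finset.card_le_card (t := box (a * n) ×ˢ Finset.range (a * n + 1))
        fun b hb => ?_).trans ?_
      · obtain ⟨w, ⟨⟨-, h2, h3⟩, h4⟩, rfl⟩ := ht b hb
        have h5 := tot_tour h2 h4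
        have h6 : w ≠ [] := by
          rintro rfl
          exact h4.ne rfl
        rw [sz] at h3
        refine Finset.mem_product.2 ⟨mem_box.2 fun i => (le_bx (hd_mem h6) i).trans (by omega),
          Finset.mem_range.2 ?_⟩
        show w.length < a * n + 1
        omega
      · rw [Finset.card_product, card_box, Finset.card_range]
    · rintro ⟨p, k⟩
      by_cases hk : k ≤ a * n
      · refine (hC p k).mono ?_ ?_ ?_
        · rintro w ⟨⟨⟨h1, h2, -⟩, h4⟩, h5⟩
          rw [Prod.mk.injEq] at h5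
          exact ⟨h1, h5.2, h5.1, jn_eq_zero.1 (Nat.le_zero.1 h2), h4⟩
        · rintro w ⟨⟨⟨-, h2, -⟩, h4⟩, -⟩
          rw [ep, ew, pot, tot_tour h2 h4, sub_self, mul_zero, sub_zero]
        · have : (k : ℝ) ≤ (a * n : ℕ) := by exact_mod_cast hk
          gcongr
      · refine bd_empty ?_ (by positivity)
        rintro w ⟨⟨⟨-, h2, h3⟩, h4⟩, h5⟩
        rw [Prod.mk.injEq] at h5
        have h6 := tot_tour h2 h4
        rw [sz] at h3
        omega
  refine h1.mono subset_rfl (fun _ _ => le_rfl) (le_trans ?_ hn)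
  have e : (2 * a + 3) * n = 2 * (a * n) + 3 * n := by ring
  have h2 : (2 * (a * n) + 1) ^ 3 * (a * n + 1) * (a * n + 3) ^ 2 ≤
      ((2 * a + 3) * n + (2 * a + 3)) ^ 6 := by
    rw [show 6 = 3 + 1 + 2 by rfl, pow_add, pow_add, pow_one]
    exact Nat.mul_le_mul (Nat.mul_le_mul (Nat.pow_le_pow_left (by omega) _) (by omega))
      (Nat.pow_le_pow_left (by omega) _)
  have h3 : ((((2 * (a * n) + 1) ^ 3 * (a * n + 1) : ℕ) : ℝ)) * (((a * n : ℕ) : ℝ) + 3) ^ 2 ≤
      (((2 * a + 3) * n + (2 * a + 3) : ℕ) : ℝ) ^ 6 := by exact_mod_cast h2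
  rw [mul_left_comm]
  exact mul_le_mul_of_nonneg_left h3 hC0

theorem step {θ : Par} {j : ℕ} (h : PP θ (X j)) : PP θ (X' (j + 1)) := by
  intro a δ hδ
  filter_upwards [h a _ (half_pos hδ), ev_poly 1 (a + 2) 1 (half_pos hδ)] with n h1 h2
  have h3 := h1.transfer (X := X' (j + 1) (a * n)) (f := ep θ Finset.univ) (c := 1)
    (fan_dec (Finset.range (a * n + 2)) fun k (y : List P) => y.rotate k) zero_le_one
    (fun y => (ep_pos _ _ y).le) ?_
  · refine h3.mono subset_rfl (fun _ _ => le_rfl) ?_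
    rw [Finset.card_range, one_mul, show δ * n = δ / 2 * n + δ / 2 * n by ring, Real.exp_add]
    refine mul_le_mul_of_nonneg_right (le_trans ?_ h2) (Real.exp_pos _).le
    rw [one_mul, pow_one]
    have e : (a + 2) * n = a * n + 2 * n := by ring
    exact Nat.cast_le.2 (by omega)
  · rintro w ⟨⟨g1, g2, g3⟩, g4⟩
    by_cases hj : jn w ≤ j
    · exact ⟨w, ⟨g1, hj, g3⟩, ⟨0, by simp, by simp⟩, by rw [one_mul]⟩
    · obtain ⟨u, v, rfl, hu, hv, hn⟩ := exists_jump (w := w) (by omega)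
      have k1 := tot_rotate hu hv
      have k2 := length_le_len g1.1
      rw [lt_append _ hv, hd_append hu] at g4
      refine ⟨v ++ u, ⟨g1.perm List.perm_append_comm, ?_, ?_⟩, ⟨v.length, ?_, ?_⟩, ?_⟩
      · rw [jn, cs_append _ hu hv, jmp_not hn] at g2
        rw [jn, cs_append _ hv hu, jmp_adj g4]
        omega
      · have k3 : bx (v ++ u) ≤ bx (u ++ v) :=
          bx_mono fun p hp => List.perm_append_comm.mem_iff.1 hp
        rw [sz] at g3 ⊢
        omega
      · rw [sz, tot] at g3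
        rw [List.length_append] at k2
        exact Finset.mem_range.2 (by omega)
      · exact (List.rotate_append_length_eq v u).symm
      · rw [one_mul, ep, ep, pot, pot, k1, List.toFinset_append, List.toFinset_append,
          Finset.union_comm, List.length_append, List.length_append, add_comm u.length]

theorem join (hJ : JoinStmt) {θ : Par} {j : ℕ} (h : PP θ (X' j)) : PP θ (X j) := by
  intro a δ hδ
  have hk := kap_nonneg θ
  have hd : 0 < δ / 3 := by positivity
  obtain ⟨ε, hε, e1, e2⟩ : ∃ ε : ℝ, 0 < ε ∧ ε ≤ 1 ∧ kap θ * ε ≤ δ / 3 := by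
    refine ⟨min 1 (δ / 3 / (kap θ + 1)), by positivity, min_le_left _ _, ?_⟩
    have h1 : min 1 (δ / 3 / (kap θ + 1)) ≤ δ / 3 / (kap θ + 1) := min_le_right _ _
    have h2 : 0 < min 1 (δ / 3 / (kap θ + 1)) := by positivity
    rw [le_div_iff₀ (by positivity)] at h1
    nlinarith
  obtain ⟨s, hs⟩ := exists_nat_gt (400 * ((a : ℝ) + 2) / ε)
  have hs0 : (0 : ℝ) < s := lt_trans (by positivity) hs
  have hs1 : 0 < s := by exact_mod_cast hs0
  rw [div_lt_iff₀ hε] at hs
  obtain ⟨c, hc⟩ := hJ s (s * s) hs1 (Nat.mul_pos hs1 hs1)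
  have hev : ∀ᶠ n : ℕ in atTop, ((c * (j + 1) + 101 + 100 * s : ℕ) : ℝ) ≤ ε / 2 * n :=
    (tendsto_natCast_atTop_atTop.const_mul_atTop (half_pos hε)).eventually_ge_atTop _
  filter_upwards [h (2 * a + 2) _ hd, ev_poly 2 (a + 2) c hd, hev] with n h1 h2 h3
  obtain ⟨ρ, hρ, hw⟩ := hc ((a + 2) * n)
  obtain ⟨η, hη⟩ : ∃ η, η = c * (j + 1) + 100 * ((a + 2) * n / s + 1) +
    100 * s * ((a + 2) * n / (s * s) + 1) := ⟨_, rfl⟩
  have k1 : s * ((a + 2) * n / (s * s)) ≤ (a + 2) * n / s := by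
    rw [← Nat.div_div_eq_div_mul]
    exact Nat.mul_div_le _ _
  have k2 : η + 1 ≤ c * (j + 1) + 101 + 100 * s + 200 * ((a + 2) * n / s) := by
    have e : 100 * s * ((a + 2) * n / (s * s) + 1) =
      100 * (s * ((a + 2) * n / (s * s))) + 100 * s := by ring
    omega
  have k3 : ((((a + 2) * n / s : ℕ)) : ℝ) * s ≤ ((a : ℝ) + 2) * n := by
    exact_mod_cast Nat.div_mul_le_self ((a + 2) * n) s
  have hn0 : (0 : ℝ) ≤ n := Nat.cast_nonneg n
  have k4 : 200 * ((((a + 2) * n / s : ℕ)) : ℝ) ≤ ε / 2 * n := by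
    refine le_of_mul_le_mul_right ?_ hs0
    nlinarith [mul_le_mul_of_nonneg_right hs.le hn0]
  have k5 : (η : ℝ) + 1 ≤ ε * n := by
    have : ((η + 1 : ℕ) : ℝ) ≤
        ((c * (j + 1) + 101 + 100 * s + 200 * ((a + 2) * n / s) : ℕ) : ℝ) := Nat.cast_le.2 k2
    rw [Nat.cast_add, Nat.cast_one, Nat.cast_add, Nat.cast_mul 200, Nat.cast_ofNat] at this
    linarith
  have k6 : η + 1 ≤ n := by
    have : (η : ℝ) + 1 ≤ n := k5.trans (mul_le_of_le_one_left hn0 e1)
    exact_mod_cast this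
  have k7 : kap θ * η ≤ δ / 3 * n := by
    have a1 : kap θ * η ≤ kap θ * (ε * n) := mul_le_mul_of_nonneg_left (by linarith) hk
    have a2 := mul_le_mul_of_nonneg_right e2 hn0
    linarith
  have h4 := h1.transfer (X := {w | w ∈ X j (a * n) ∧ w ≠ []}) (f := ep θ Finset.univ)
    (c := Real.exp (δ / 3 * n)) hρ (Real.exp_pos _).le (fun y => (ep_pos _ _ y).le) ?_
  · have h5 := h4.union (bd_singleton ([] : List P) (ep_pos θ Finset.univ []).le)
    refine h5.mono (fun w hw => ?_) (fun _ _ => le_rfl) ?_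
    · by_cases e : w = []
      · exact Or.inr e
      · exact Or.inl ⟨hw, e⟩
    · have a1 : (1 : ℝ) ≤ Real.exp (δ / 3 * n) := Real.one_le_exp (by positivity)
      have a2 : (1 : ℝ) ≤ ((((a + 2) * n + 2) ^ c : ℕ) : ℝ) := by
        exact_mod_cast Nat.one_le_pow _ _ (by omega)
      have a3 : ((((a + 2) * n + 2) ^ c : ℕ) : ℝ) ≤ (((a + 2) * n + (a + 2) : ℕ) : ℝ) ^ c := by
        exact_mod_cast Nat.pow_le_pow_left (by omega) c
      rw [ep, pot_nil, Real.exp_zero,
        show δ * n = δ / 3 * n + δ / 3 * n + δ / 3 * n by ring, Real.exp_add, Real.exp_add]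
      generalize Real.exp (δ / 3 * n) = E at *
      generalize ((((a + 2) * n + 2) ^ c : ℕ) : ℝ) = K at *
      have a4 : 2 * K ≤ E := by linarith
      have a5 : 1 ≤ E * K * E := one_le_mul_of_one_le_of_one_le
        (one_le_mul_of_one_le_of_one_le a1 a2) a1
      have a6 : E * (2 * K) * E ≤ E * E * E := by gcongr
      linarith
  · rintro w ⟨⟨g1, g2, g3⟩, g4⟩
    have e : (a + 2) * n = a * n + 2 * n := by ring
    have e' : (2 * a + 2) * n = 2 * (a * n) + 2 * n := by ring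
    have b1 := Nat.lt_mul_div_succ ((a + 2) * n) hs1
    have b2 := Nat.lt_mul_div_succ ((a + 2) * n) (Nat.mul_pos hs1 hs1)
    obtain ⟨w', c1, c2, c3, c4, c5, c6⟩ := hw j _ _ η w g1 g4 g2 hη (by omega) (by omega) (by omega)
    refine ⟨w', ⟨⟨c2, c3.trans g2, by omega⟩, c4⟩, c1, ?_⟩
    rw [ep, ep, ← Real.exp_add]
    exact Real.exp_le_exp.2 (by linarith [c6 θ])

end Close

theorem close_of (hJ : JoinStmt) : CloseStmt := by
  intro θ hθ j a ρ δ _ hδ
  have h : ∀ j, Close.PP θ (Close.X j) := by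
    intro j
    induction j with
    | zero => exact Close.join hJ (Close.base hθ)
    | succ j ih => exact Close.join hJ (Close.step ih)
  filter_upwards [h j a δ hδ] with n hn
  refine hn.mono (fun w hw => ⟨hw.1, hw.2.1, hw.2.2.1⟩) (fun _ _ => le_rfl) ?_
  rw [zero_mul, zero_add]

end Pool.Agent.MP_7b45f6_mp.H32
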